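import Pool.Agent.Helper84.SPN.St

/-!
Module TS3 of SPN: the group `Sp_4(3)` has no nontrivial quotient of odd order.
-/

set_option autoImplicit false

namespace Pool.Agent.Helper45.SPN

open Pool.Agent.Helper84.SPN Pool.Agent.Helper75.MX Pool.Agent.Helper70.ML

/-- the image of a group without quotients of odd order lies in every normal subgroup of odd index -/
theorem range_le {G H : Type} [Group G] [Group H] {N : Subgroup G} (hN : N.Normal)
    (hodd : Odd N.index) (hH : TS H) (φ : H →* G) (x : H) : φ x ∈ N := by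
  have h1 : (N.comap φ).index = N.relIndex φ.range := Subgroup.index_comap N φ
  have h2 : N.relIndex φ.range ∣ N.index := Subgroup.relIndex_dvd_index_of_normal N φ.range
  have h3 : Odd (N.comap φ).index := by
    rw [h1]
    exact Odd.of_dvd_nat hodd h2
  have h4 : N.comap φ = ⊤ := hH _ (hN.comap φ) h3
  have h5 : x ∈ N.comap φ := by rw [h4]; trivial
  exact h5

theorem card_sp0 (F : Type) [Field F] : Nat.card (SpG 0 F) = 1 := by
  have hs : Subsingleton (VV 0 F) := inferInstance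
  have h1 : Subsingleton (SpG 0 F) := by
    refine ⟨fun a b => ?_⟩
    apply Subtype.ext
    apply LinearEquiv.ext
    intro v
    exact Subsingleton.elim _ _
  exact Nat.card_unique

theorem om_zero_left {n : ℕ} {F : Type} [Field F] (w : VV n F) : om (0 : VV n F) w = 0 := by
  simp [om]

theorem three_eq_zero {F : Type} [Field F] [Finite F] (h : Nat.card F = 3) : (3 : F) = 0 := by
  classical
  have := Fintype.ofFinite F
  have h1 : (Fintype.card F : F) = 0 := FiniteField.cast_card_eq_zero F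
  rw [← Nat.card_eq_fintype_card, h] at h1
  exact_mod_cast h1

theorem hTS3 (hEMB : StEMB) (hRRR : StRRR) (hDEC : StDEC) (hRES : StRES) (hLFI : StLFI)
    (hORD : StORD) : StTS3 := by
  intro F _ _ hF N hN hodd
  have h30 : (3 : F) = 0 := three_eq_zero hF
  obtain ⟨K, _, _, hK, φ, hφ⟩ := hEMB 2 F (by norm_num)
  -- the image of `SL_2(K)`
  have hX : ∀ x, φ x ∈ N := by
    have hc : Nat.card K = 9 := by rw [hK, hF]; norm_num
    have hm := (Pool.Agent.Helper84.MXP.slAll 2 K le_rfl (by rw [hc]; norm_num) ⊥ bot_le).1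
    have hTS := ts_of_mixable hm
    intro x
    have h := range_le hN hodd hTS
      (φ.comp (QuotientGroup.quotientBot (G := SLn 2 K)).toMonoidHom) (QuotientGroup.mk x)
    exact h
  -- the subgroup `Re`
  have hR : Re 1 F ≤ N := by
    intro x hx
    exact range_le hN hodd ((hRES 1 F).2.2 le_rfl) (Re 1 F).subtype ⟨x, hx⟩
  obtain ⟨r, hr⟩ := hRRR 1 F
  have hom0 : om (e0 1 F) 0 = 0 := by simp [om]
  have hom0' : om (f0 1 F) 0 = 0 := by simp [om]
  have hrv : ∀ (c : F) (v : VV 2 F), (r 0 c).1 v = v + (c * om (e0 1 F) v) • e0 1 F := by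
    intro c v
    rw [(hr 0 c hom0 hom0').2.1 v, om_zero_left]
    module
  have hr0 : r 0 0 = 1 := by
    apply Subtype.ext
    apply LinearEquiv.ext
    intro v
    rw [hrv]
    simp
  have hrr : ∀ c c' : F, r 0 c * r 0 c' = r 0 (c + c') := by
    intro c c'
    rw [(hr 0 c hom0 hom0').2.2 0 c' hom0 hom0', om_zero_left, add_zero, add_zero]
  have hr3 : r 0 1 ^ 3 = 1 := by
    rw [pow_succ, pow_two, hrr, hrr, show (1 : F) + 1 + 1 = 3 by norm_num, h30, hr0]
  -- the vectors `e₁` and `f₁`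
  set e1 : VV 2 F := (Pi.single 1 1, 0) with he1
  set f1 : VV 2 F := (0, Pi.single 1 1) with hf1
  have he0 : e0 1 F ≠ 0 := by
    intro h
    have h1 := congrFun (congrArg Prod.fst h) 0
    simp [e0] at h1
  have he1' : e1 ≠ 0 := by
    intro h
    have h1 := congrFun (congrArg Prod.fst h) 1
    simp [he1] at h1
  obtain ⟨x, hx⟩ := hφ (e0 1 F) e1 he0 he1'
  set t : SpG 2 F := φ x * r 0 1 * (φ x)⁻¹ with ht
  have htN : t ∈ N := hN.conj_mem _ (hR (hr 0 1 hom0 hom0').1) _
  have ht3 : t ^ 3 = 1 := by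
    rw [ht, conj_pow, hr3, mul_one, mul_inv_cancel]
  have htv : ∀ v, t.1 v = v + om e1 v • e1 := by
    intro v
    have h0 : (φ x).1 ((φ x)⁻¹.1 v) = v := LinearEquiv.apply_symm_apply (φ x).1 v
    have h1 : t.1 v = (φ x).1 ((r 0 1).1 ((φ x)⁻¹.1 v)) := rfl
    rw [h1, hrv, map_add, map_smul, h0, hx, one_mul]
    congr 2
    rw [← (φ x).2 (e0 1 F) ((φ x)⁻¹.1 v), hx, h0]
  have htL : t ∈ Lf 1 F := by
    constructor
    · rw [htv]
      simp [om, he1, e0]
    · rw [htv]
      simp [om, he1, f0]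
  have ht1 : t ≠ 1 := by
    intro h
    have h1 : t.1 f1 = f1 := by rw [h]; rfl
    rw [htv] at h1
    have h2 : om e1 f1 = 1 := by simp [om, he1, hf1]
    rw [h2, one_smul] at h1
    exact he1' (by simpa using h1)
  -- the order of `Lf`
  have hcard : Nat.card (Lf 1 F) = 24 := by
    obtain ⟨e⟩ := hLFI 1 F
    have h1 := hORD 0 F
    rw [card_sp0, hF] at h1
    rw [Nat.card_congr e.toEquiv]
    exact h1.trans (by norm_num)
  have hfin : Finite (Lf 1 F) := Nat.finite_of_card_ne_zero (by rw [hcard]; norm_num)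
  have hL : Lf 1 F ≤ N := by
    have ho : Odd (N.subgroupOf (Lf 1 F)).index :=
      Odd.of_dvd_nat hodd (Subgroup.relIndex_dvd_index_of_normal N (Lf 1 F))
    have hmul := (N.subgroupOf (Lf 1 F)).card_mul_index
    rw [hcard] at hmul
    have hord : orderOf t = 3 := by
      have : Fact (Nat.Prime 3) := ⟨by norm_num⟩
      exact orderOf_eq_prime ht3 ht1
    have h3 : 3 ∣ Nat.card (N.subgroupOf (Lf 1 F)) := by
      have h4 : orderOf (⟨⟨t, htL⟩, htN⟩ : N.subgroupOf (Lf 1 F)) = 3 := by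
        rw [← hord]
        exact (Subgroup.orderOf_coe (⟨⟨t, htL⟩, htN⟩ : N.subgroupOf (Lf 1 F))).symm.trans
          (Subgroup.orderOf_coe (⟨t, htL⟩ : Lf 1 F)).symm
      have h5 := orderOf_dvd_natCard (⟨⟨t, htL⟩, htN⟩ : N.subgroupOf (Lf 1 F))
      rw [h4] at h5
      exact h5
    obtain ⟨k, hk⟩ := h3
    rw [hk] at hmul
    have h8 : k * (N.subgroupOf (Lf 1 F)).index = 2 ^ 3 := by
      rw [mul_assoc] at hmul
      omega
    have hco : Nat.Coprime (N.subgroupOf (Lf 1 F)).index (2 ^ 3) :=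
      Nat.Coprime.pow_right _ (Nat.coprime_two_right.2 ho)
    have h1 : (N.subgroupOf (Lf 1 F)).index = 1 :=
      Nat.Coprime.eq_one_of_dvd hco (Dvd.intro_left k h8)
    have h2 : N.subgroupOf (Lf 1 F) = ⊤ := Subgroup.index_eq_one.1 h1
    exact Subgroup.subgroupOf_eq_top.1 h2
  -- conclusion
  rw [Subgroup.eq_top_iff']
  intro g
  have hg0 : g.1 (e0 1 F) ≠ 0 := by
    intro h
    exact he0 ((LinearEquiv.map_eq_zero_iff g.1).1 h)
  obtain ⟨y, hy⟩ := hφ (e0 1 F) (g.1 (e0 1 F)) he0 hg0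
  have hyg : ((φ y)⁻¹ * g).1 (e0 1 F) = e0 1 F := by
    show (φ y).1.symm (g.1 (e0 1 F)) = e0 1 F
    rw [← hy, LinearEquiv.symm_apply_apply]
  obtain ⟨s, hs, l, hl, hsl⟩ := hDEC 1 F ((φ y)⁻¹ * g) hyg
  have hgg : g = φ y * (s * l) := by
    rw [← hsl, mul_inv_cancel_left]
  rw [hgg]
  exact N.mul_mem (hX y) (N.mul_mem (hR hs) (hL hl))

end Pool.Agent.Helper45.SPN
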